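import Pool.Agent.H35.DV.Stmts

/-!
Module CLX of project DV: facts about columns and good rows.
-/

set_option linter.unusedVariables false
set_option synthInstance.maxSize 100000

namespace SW.DV

/-- CLX -/
theorem dv_clx (hcr : CRDStmt) : CLXStmt := by
  intro M _ _
  have mx : ∀ {m n : M}, E m om → E n om →
      E (bun m n) om ∧ Sub m (bun m n) ∧ Sub n (bun m n) := fun h1 h2 => (hcr M).max h1 h2
  refine ⟨?_, ?_, ?_, ?_⟩
  · intro s s' m hs hm hw hl he
    refine ⟨hw, hl, fun k hk => ?_⟩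
    obtain ⟨h1, h2, h3⟩ := mx hm hk
    obtain ⟨j, hj, h4, h5⟩ := hs.2.2 _ h1
    have hmj : Sub m j := Sub.trans h2 h4
    have hW : Wn s' j = Wn s j := SW.ext fun v => by
      rw [mem_Wn, mem_Wn, he j v hj hmj]
    refine ⟨j, hj, Sub.trans h3 h4, ?_⟩
    rw [hW]
    have hc : E (card (Wn s j)) om := finF.card_om ((hcr M).wn hj)
    rcases ((Ord_nat hk).sub_iff (Ord_nat h1)).1 h3 with h | h
    · exact (Ord_nat hc).trans h5 h
    · rw [h]
      exact h5
  · intro f s s' m hg hm he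
    obtain ⟨⟨m1, hm1, h1⟩, h2⟩ := hg
    refine ⟨?_, ?_⟩
    · obtain ⟨h3, h4, h5⟩ := mx hm hm1
      refine ⟨bun m m1, h3, fun j hj hs h => ?_⟩
      rw [he j _ hj (Sub.trans h4 hs)] at h ⊢
      exact h1 j hj (Sub.trans h5 hs) h
    · intro m0 hm0
      obtain ⟨h3, h4, h5⟩ := mx hm hm0
      obtain ⟨j, hj, h6, h7⟩ := h2 _ h3
      refine ⟨j, hj, Sub.trans h5 h6, ?_⟩
      rw [he j _ hj (Sub.trans h4 h6)]
      exact h7
  · intro f
    exact ⟨⟨emp, emp_mem_om, fun j hj _ h => absurd h (not_mem_emp _)⟩,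
      fun m hm => ⟨m, hm, Sub.refl m, not_mem_emp _⟩⟩
  · rintro a b ⟨m, hm, h⟩
    exact ⟨m, hm, fun j hj hs h' => h j hj hs h'.symm⟩

end SW.DV
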