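import Pool.Agent.H35.DV.Stmts

/-!
Module CVX of project DV: basic facts about conditions.
-/

set_option linter.unusedVariables false
set_option synthInstance.maxSize 100000

namespace SW.DV

/-- CVX -/
theorem dv_cvx : CVXStmt := by
  intro M _ _ w Z I hb heI
  have hex : ∀ {a p K n z : M}, Cnd w Z I a p → E K I → Et p K n z → E n om ∧
      ∃ j v, E j om ∧ E v (suc j) ∧ z = opair j v := by
    intro a p K n z hp hK h
    obtain ⟨h1, h2, h3⟩ := hp.2.2.2 K hK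
    obtain ⟨hn, hz⟩ := h1 n z h
    obtain ⟨j, v, hj, hv, rfl⟩ := (h2 n hn).1 z (mem_col.2 ⟨hz, h⟩)
    exact ⟨hn, j, v, hj, hv, rfl⟩
  have hrow : ∀ {a p b x : M}, Cnd w Z I a p → Et p emp b x → E b a :=
    fun hp h => (hp.2.2.1.1 _ _ h).1
  have hrowl : ∀ {a p b f c S : M}, Cnd w Z I a p → Rw p b f c S → RL f ∧ Fo c ∧ Cb S ∧
      ∀ s, E s S → CL s := by
    intro a p b f c S hp h
    obtain ⟨_, f', c', S', h1, h2⟩ := hp.2.2.1.1 _ _ h
    rw [opair_inj, opair_inj] at h1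
    obtain ⟨rfl, rfl, rfl⟩ := h1
    exact h2
  constructor
  · intro a p hp
    have hw : Ord w := hb.w1.1
    have ha : E a w := by
      rcases hp.1 with h | h
      · exact h
      · rw [h]
        refine emp_mem_ord hw fun h' => hb.w1.2.1 ?_
        rw [h']
        exact ⟨emp, fun y hy => absurd hy (not_mem_emp y),
          fun y _ _ hy => absurd hy (not_mem_emp y)⟩
    exact ⟨ha, hw.mem ha⟩
  · intro a b p ha hb'
    refine SW.ext fun z => ⟨fun hz => ?_, fun hz => ?_⟩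
    · obtain ⟨x, hx⟩ := ha.2.2.1.2.2.1 z hz
      exact hrow hb' hx
    · obtain ⟨x, hx⟩ := hb'.2.2.1.2.2.1 z hz
      exact hrow ha hx
  · intro a b p q ha hb' hs z hz
    obtain ⟨x, hx⟩ := ha.2.2.1.2.2.1 z hz
    exact hrow hb' (hs _ hx)
  · intro a p b hp hba
    obtain ⟨x, hx⟩ := hp.2.2.1.2.2.1 b hba
    obtain ⟨_, f, c, S, h1, h2⟩ := hp.2.2.1.1 b x hx
    refine ⟨f, c, S, ?_, h2⟩
    unfold Rw
    rw [← h1]
    exact hx
  · intro a p b x hp h
    exact hrow hp h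
  · intro a p b f c S hp h
    exact hrowl hp h
  · intro a p b f c S f' c' S' hp h h'
    have h1 := hp.2.2.1.2.1 _ _ _ h h'
    rw [opair_inj, opair_inj] at h1
    exact h1
  · intro a p q b x hp hq hs hba h
    obtain ⟨x', hx'⟩ := hp.2.2.1.2.2.1 b hba
    obtain ⟨a', hq⟩ := mem_PQ.1 hq
    have h1 := hq.2.2.1.2.1 _ _ _ h (hs _ hx')
    rw [h1]
    exact hx'
  · intro a p K n z hp hK h
    exact hex hp hK h
  · intro a p z hp hz
    obtain ⟨K, b, x, hK, hbw, hxZ, rfl⟩ := hp.2.1.2 z hz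
    rcases hK with rfl | hK
    · exact Or.inl ⟨b, x, hrow hp hz, rfl⟩
    · obtain ⟨hn, j, v, hj, hv, rfl⟩ := hex hp hK hz
      exact Or.inr ⟨K, b, j, v, hK, hn, hj, hv, rfl⟩
  · intro a p K n j v hp hK
    rw [mem_col]
    exact ⟨fun h => h.2, fun h => ⟨((hp.2.2.2 K hK).1 n _ h).2, h⟩⟩
  · intro p K h n
    exact eq_emp fun z hz => h ⟨n, z, (mem_col.1 hz).2⟩

end SW.DV
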