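import Pool.Agent.H35.DV.Stmts

/-!
Module LSX of project DV: facts about `Ls`.
-/

set_option linter.unusedVariables false
set_option synthInstance.maxSize 100000

namespace SW.DV

/-- LSX -/
theorem dv_lsx : LSXStmt := by
  intro M _ _
  refine ⟨?_, ?_, ?_, ?_⟩
  · intro p r h
    refine ⟨?_, fun b x hx => h _ hx⟩
    have h0 : diff r p = (emp : M) := eq_emp fun z hz => by
      rw [mem_diff] at hz
      exact hz.2 (h z hz.1)
    rw [h0]
    exact finF.emp
  · intro p q r h hl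
    refine ⟨finF.sub hl.1 fun z hz => ?_, fun b x hx => h _ (hl.2 b x hx)⟩
    rw [mem_diff] at hz ⊢
    exact ⟨hz.1, fun h' => hz.2 (h z h')⟩
  · intro p r r' h hl
    refine ⟨finF.sub hl.1 fun z hz => ?_, fun b x hx => hl.2 b x (h _ hx)⟩
    rw [mem_diff] at hz ⊢
    exact ⟨h z hz.1, hz.2⟩
  · intro p q r h1 h2
    refine ⟨finF.sub (finF.bun h1.1 h2.1) fun z hz => ?_, fun b x hx => h1.2 b x (h2.2 b x hx)⟩
    rw [mem_bun, mem_diff, mem_diff]
    rw [mem_diff] at hz
    by_cases h : E z q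
    · exact Or.inl ⟨h, hz.2⟩
    · exact Or.inr ⟨hz.1, h⟩

end SW.DV
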