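import Pool.Agent.H35.DV.Stmts

/-!
Module MDX of project DV: facts about modifications.
-/

set_option linter.unusedVariables false
set_option synthInstance.maxSize 100000

namespace SW.DV

section
variable {M : Type} [SetStr M] [ZF M]

theorem mdx_mem_At {e p z : M} : E z (At e p) ↔ E z p ∧ ∃ K n j v,
    z = opair K (opair n (opair j v)) ∧ E (opair K (opair n j)) e := by
  unfold At; rw [mem_sep' inferInstance]

theorem mdx_mem_md {p e s z : M} : E z (md p e s) ↔ (E z p ∧ ¬ E z (At e p)) ∨ E z s := by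
  unfold md; rw [mem_bun, mem_diff]

theorem mdx_mem_en1 {K n j z : M} : E z (en1 (opair K (opair n j))) ↔
    ∃ v, E v (suc j) ∧ z = opair K (opair n (opair j v)) := by
  unfold en1
  rw [mem_img' inferInstance]
  simp only [fs_op, sn_op]

end

/-- MDX -/
theorem dv_mdx (hcv : CVXStmt) : MDXStmt := by
  intro M _ _ w Z I hb heI
  have cv := hcv M w Z I hb heI
  have hmem : ∀ {e z : M}, Eps I e → (E z (En e) ↔ ∃ K n j v, E (opair K (opair n j)) e ∧
      E v (suc j) ∧ z = opair K (opair n (opair j v))) := by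
    intro e z he
    unfold En
    rw [mem_sUn]
    constructor
    · rintro ⟨y, hy, hz⟩
      rw [mem_img' inferInstance] at hy
      obtain ⟨x, hx, rfl⟩ := hy
      obtain ⟨K, n, j, _, _, _, rfl⟩ := he.2 x hx
      rw [mdx_mem_en1] at hz
      obtain ⟨v, hv, rfl⟩ := hz
      exact ⟨K, n, j, v, hx, hv, rfl⟩
    · rintro ⟨K, n, j, v, hx, hv, rfl⟩
      refine ⟨en1 (opair K (opair n j)), ?_, mdx_mem_en1.2 ⟨v, hv, rfl⟩⟩
      rw [mem_img' inferInstance]
      exact ⟨_, hx, rfl⟩
  have hfin : ∀ {e : M}, Eps I e → Fnt (En e) := by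
    intro e he
    unfold En
    refine finF.sUn (finF.img _ inferInstance he.1) fun y hy => ?_
    rw [mem_img' inferInstance] at hy
    obtain ⟨x, hx, rfl⟩ := hy
    obtain ⟨K, n, j, _, _, hj, rfl⟩ := he.2 x hx
    refine finF.img _ inferInstance ?_
    rw [sn_op, sn_op]
    exact finF.nat (suc_mem_om hj)
  have hkI : ∀ {e K n j : M}, Eps I e → E (opair K (opair n j)) e → E K I ∧ E n om ∧ E j om := by
    intro e K n j he h
    obtain ⟨K', n', j', h1, h2, h3, h4⟩ := he.2 _ h
    rw [opair_inj, opair_inj] at h4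
    obtain ⟨rfl, rfl, rfl⟩ := h4
    exact ⟨h1, h2, h3⟩
  have hAtE : ∀ {e p K n j v : M}, E (opair K (opair n j)) e →
      (Ex (At e p) K n j v ↔ Ex p K n j v) := by
    intro e p K n j v h
    unfold Ex Et
    rw [mdx_mem_At]
    exact ⟨fun h' => h'.1, fun h' => ⟨h', K, n, j, v, rfl, h⟩⟩
  have hempE : ∀ {e b x : M}, Eps I e → ¬ E (opair emp (opair b x)) (En e) := by
    intro e b x he h
    obtain ⟨K, n, j, v, h1, h2, h3⟩ := (hmem he).1 h
    rw [opair_inj] at h3
    rw [← h3.1] at h1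
    exact heI (hkI he h1).1
  have hAtE' : ∀ {a p e : M}, Cnd w Z I a p → Eps I e → Sub (At e p) (En e) := by
    intro a p e hp he z hz
    rw [mdx_mem_At] at hz
    obtain ⟨hz, K, n, j, v, rfl, h⟩ := hz
    obtain ⟨hn, j', v', hj', hv', h'⟩ := cv.ex hp (hkI he h).1 hz
    rw [opair_inj] at h'
    obtain ⟨rfl, rfl⟩ := h'
    exact (hmem he).2 ⟨K, n, j, v, h, hv', rfl⟩
  have hemp : ∀ {p e s b x : M}, Eps I e → Sub s (En e) →
      (Et (md p e s) emp b x ↔ Et p emp b x) := by
    intro p e s b x he hs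
    unfold Et
    rw [mdx_mem_md]
    constructor
    · rintro (h | h)
      · exact h.1
      · exact absurd (hs _ h) (hempE he)
    · intro h
      refine Or.inl ⟨h, fun h' => ?_⟩
      rw [mdx_mem_At] at h'
      obtain ⟨_, K, n, j, v, h2, h3⟩ := h'
      rw [opair_inj] at h2
      rw [← h2.1] at h3
      exact heI (hkI he h3).1
  refine ⟨?_, ?_, ?_, ?_, ?_, ?_, ?_, ?_⟩
  · intro e he
    exact hfin he
  · intro e z he
    exact hmem he
  · rintro e s ⟨h1, h2⟩
    refine ⟨h1, fun K n j h => ?_⟩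
    obtain ⟨v, hv, hv', h3⟩ := h2 K n j h
    refine ⟨⟨v, hv, hv'⟩, fun u u' _ hu hu' h4 h5 => ?_⟩
    have e1 : u = v := by
      by_contra hne
      exact h4 (h3 u hu hne)
    have e2 : u' = v := by
      by_contra hne
      exact h5 (h3 u' hu' hne)
    rw [e1, e2]
  · intro p e s b x he hs
    exact hemp he hs
  · intro p e s K n j v he hs h
    unfold Ex Et
    rw [mdx_mem_md]
    constructor
    · rintro (h' | h')
      · exact absurd (mdx_mem_At.2 ⟨h'.1, K, n, j, v, rfl, h⟩) h'.2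
      · exact h'
    · exact fun h' => Or.inr h'
  · intro p e s K n j v he hs h
    unfold Ex Et
    rw [mdx_mem_md]
    constructor
    · rintro (h' | h')
      · exact h'.1
      · obtain ⟨K', n', j', v', h1, h2, h3⟩ := (hmem he).1 (hs _ h')
        rw [opair_inj, opair_inj, opair_inj] at h3
        obtain ⟨rfl, rfl, rfl, rfl⟩ := h3
        exact absurd h1 h
    · intro h'
      refine Or.inl ⟨h', fun h2 => ?_⟩
      rw [mdx_mem_At] at h2
      obtain ⟨_, K', n', j', v', h3, h4⟩ := h2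
      rw [opair_inj, opair_inj, opair_inj] at h3
      obtain ⟨rfl, rfl, rfl, rfl⟩ := h3
      exact h h4
  · intro a p e hp he
    refine ⟨hAtE' hp he, fun K n j h => ?_⟩
    obtain ⟨hK, hn, hj⟩ := hkI he h
    obtain ⟨⟨v, hv, hv'⟩, h2⟩ := ((hp.2.2.2 K hK).2.1 n hn).2.1 j hj
    have hx : ∀ v, Ex (At e p) K n j v ↔ E (opair j v) (col p K n) := fun v => by
      rw [hAtE h, cv.colx hp hK]
    refine ⟨⟨v, hv, fun h' => hv' ((hx v).1 h')⟩, fun u u' h3 hu hu' h4 h5 => ?_⟩
    exact h2 u u' ((hx _).1 h3) hu hu' (fun h' => h4 ((hx _).2 h')) fun h' => h5 ((hx _).2 h')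
  · intro a p e s hp he hs
    refine ⟨⟨?_, fun b x h => (hemp he hs).2 h⟩, ?_, fun b x h => (hemp he hs).1 h⟩
    · refine finF.sub (finF.sub (hfin he) (hAtE' hp he)) fun z hz => ?_
      rw [mem_diff, mdx_mem_md] at hz
      by_contra h
      exact hz.2 (Or.inl ⟨hz.1, h⟩)
    · refine finF.sub (finF.sub (hfin he) hs) fun z hz => ?_
      rw [mem_diff, mdx_mem_md] at hz
      rcases hz.1 with h | h
      · exact absurd h.1 hz.2
      · exact h

end SW.DV
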