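import Pool.Agent.H35.DV.Stmts

/-!
Module RST of project DV: restrictions of conditions to subsystems.
-/

set_option linter.unusedVariables false
set_option synthInstance.maxSize 100000

namespace SW.DV

/-- RST -/
theorem dv_rst (hcb : CBTStmt) : RSTStmt := by
  intro M _ _ w Z I J a p hb heI hJI hJ hp
  obtain ⟨ha, hS, hR, hK⟩ := hp
  have et : ∀ K b x, Et (rj w Z J p) K b x ↔ Et p K b x ∧ (K = emp ∨ E K J) := by
    intro K b x
    unfold Et rj
    rw [mem_inter, mem_prod, mem_prod, mem_ins]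
    constructor
    · rintro ⟨h1, h2, h3⟩
      exact ⟨h1, h2.symm⟩
    · rintro ⟨h1, h2⟩
      refine ⟨h1, h2.symm, ?_⟩
      obtain ⟨K', b', x', _, h3, h4, h5⟩ := hS.2 _ h1
      rw [opair_inj, opair_inj] at h5
      obtain ⟨rfl, rfl, rfl⟩ := h5
      exact ⟨h3, h4⟩
  have etE : ∀ b x, Et (rj w Z J p) emp b x ↔ Et p emp b x := fun b x => by
    rw [et]
    exact ⟨fun h => h.1, fun h => ⟨h, Or.inl rfl⟩⟩
  have etJ : ∀ K, E K J → ∀ b x, Et (rj w Z J p) K b x ↔ Et p K b x := fun K hKJ b x => by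
    rw [et]
    exact ⟨fun h => h.1, fun h => ⟨h, Or.inr hKJ⟩⟩
  have rw' : ∀ b f c S, Rw (rj w Z J p) b f c S ↔ Rw p b f c S := fun b f c S => etE _ _
  have hsub : Sub (rj w Z J p) p := fun z hz => by
    unfold rj at hz
    rw [mem_inter] at hz
    exact hz.1
  refine ⟨⟨ha, ⟨(hcb M).sub hS.1 hsub, fun z hz => ?_⟩, ⟨?_, ?_, ?_, ?_⟩, fun K hKJ => ?_⟩, etE⟩
  · obtain ⟨K, b, x, _, h2, h3, rfl⟩ := hS.2 z (hsub z hz)
    exact ⟨K, b, x, ((et K b x).1 hz).2, h2, h3, rfl⟩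
  · intro b x h
    exact hR.1 b x ((etE b x).1 h)
  · intro b x x' h h'
    exact hR.2.1 b x x' ((etE _ _).1 h) ((etE _ _).1 h')
  · intro b hba
    obtain ⟨x, hx⟩ := hR.2.2.1 b hba
    exact ⟨x, (etE _ _).2 hx⟩
  · intro b b' f c S f' c' S' hbb h h'
    exact hR.2.2.2 b b' f c S f' c' S' hbb ((rw' _ _ _ _).1 h) ((rw' _ _ _ _).1 h')
  · obtain ⟨k1, k2, k3⟩ := hK K (hJI K hKJ)
    have hcol : ∀ n, col (rj w Z J p) K n = col p K n := fun n => SW.ext fun z => by
      rw [mem_col, mem_col, etJ K hKJ]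
    have hex : ∀ n j v, Ex (rj w Z J p) K n j v ↔ Ex p K n j v := fun n j v => etJ K hKJ _ _
    refine ⟨fun n z h => k1 n z ((etJ K hKJ _ _).1 h), fun n hn => ?_, fun b f c S h => ?_⟩
    · rw [hcol]
      exact k2 n hn
    · rcases k3 b f c S ((rw' _ _ _ _).1 h) with h1 | h1
      · left
        obtain ⟨g, r, f', c', S', h2, h3, h4, h5, h6⟩ := h1
        refine ⟨g, r, f', c', S', (rw' _ _ _ _).2 h2, h3, ⟨?_, fun b x h => ?_⟩, ?_, ?_⟩
        · refine finF.sub h4.1 fun z hz => ?_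
          rw [mem_diff] at hz ⊢
          refine ⟨hz.1, fun h' => hz.2 ?_⟩
          obtain ⟨u', q, h7, h8⟩ := hJ.2 K hKJ _ h3
          rw [opair_inj] at h7
          obtain ⟨rfl, rfl⟩ := h7
          unfold rj
          rw [mem_inter]
          exact ⟨h', h8 z hz.1⟩
        · exact (etE _ _).2 (h4.2 b x h)
        · intro n hn
          obtain ⟨m, hm, h7⟩ := h5 n hn
          exact ⟨m, hm, fun j hj hmj => (hex _ _ _).2 (h7 j hj hmj)⟩
        · intro m hm
          obtain ⟨n, j, hn, hmn, hj, h7, h8, h9⟩ := h6 m hm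
          exact ⟨n, j, hn, hmn, hj, h7, (hex _ _ _).2 h8, fun h => h9 ((hex _ _ _).1 h)⟩
      · right
        intro n hn
        rw [hcol]
        exact h1 n hn

end SW.DV
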