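import Pool.Agent.H35.DV.Stmts

/-!
Module TMO of project DV: treated rows stay treated.
-/

set_option linter.unusedVariables false
set_option synthInstance.maxSize 100000

namespace SW.DV

/-- TMO -/
theorem dv_tmo (hcv : CVXStmt) (hls : LSXStmt) : TMOStmt := by
  intro M _ _ w Z I a p q K b hb heI hp hK hs hl ht
  have cv := hcv M w Z I hb heI
  obtain ⟨h, r, f, c, S, h1, h2, h3, h4, h5⟩ := ht
  have hf : RL f := (cv.rowl hp h1).1
  refine ⟨h, r, f, c, S, hs _ h1, h2, (hls M).mono hs h3, fun n hn => ?_, fun m hm => ?_⟩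
  · obtain ⟨m, hm, h6⟩ := h4 n hn
    exact ⟨m, hm, fun j hj hmj => hs _ (h6 j hj hmj)⟩
  · obtain ⟨n, j, hn, hmn, hj, h6, h7, h8⟩ := h5 m hm
    refine ⟨n, j, hn, hmn, hj, h6, hs _ h7, fun h9 => ?_⟩
    obtain ⟨⟨v, hv, hv'⟩, _⟩ := hl n j hn hj
    have hvo : E v om := Trans_om (suc j) (suc_mem_om hj) v hv
    have hfo : E (app f j) om := Trans_om (suc j) (suc_mem_om hj) _ (hf.2 j hj).1
    have h10 : ¬ E (opair j v) (col p K n) := fun h => hv' (by
      rw [mem_col] at h ⊢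
      exact ⟨h.1, hs _ h.2⟩)
    have h11 : ¬ E (opair j (app f j)) (col p K n) := fun h => h8 ((cv.colx hp hK).1 h)
    have h12 : E (opair j emp) (col p K n) := (cv.colx hp hK).2 h7
    have h13 := ((hp.2.2.2 K hK).2.1 n hn).2.1 j hj
    have h14 : v = app f j := h13.2 v (app f j) h12 hv (hf.2 j hj).1 h10 h11
    apply hv'
    rw [h14, mem_col, mem_prod]
    exact ⟨⟨hj, hfo⟩, h9⟩

end SW.DV
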